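import Pool.Agent.H146R3.CloneToMonoid

/-!
Question 1, for arbitrary sets: the lattice of local clones on a set `X` embeds into the lattice of
local transformation monoids on the same set if and only if `X` is infinite (of any cardinality) or
has at most one element.
-/

namespace Pool.Agent.Results.MP_cac0a5_al.EverySet

universe u

open Pool.Agent.H146R3

/-! ### Infinite sets -/

/-- For an infinite set `X` the set `Tup X` of the nonempty tuples of elements of `X`, with one
extra element, has the cardinality of `X`. -/
theorem mk_Tup (X : Type u) [Infinite X] : Cardinal.mk (Tup X) = Cardinal.mk X := by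
  have hX : Cardinal.aleph0 ≤ Cardinal.mk X := Cardinal.aleph0_le_mk X
  apply le_antisymm
  · have h1 : Cardinal.mk (Σ n : ℕ, (Fin (n + 1) → X)) ≤ Cardinal.mk (List X) := by
      refine Cardinal.mk_le_of_injective (f := fun p => (List.ofFn p.2 : List X)) ?_
      rintro ⟨n, f⟩ ⟨m, g⟩ h
      have hl := congrArg List.length h
      simp only [List.length_ofFn] at hl
      have hnm : n = m := by omega
      subst hnm
      exact congrArg (Sigma.mk n) (List.ofFn_injective h)
    rw [Cardinal.mk_option]
    calc Cardinal.mk (Σ n : ℕ, (Fin (n + 1) → X)) + 1 ≤ Cardinal.mk (List X) + 1 := by gcongr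
      _ = Cardinal.mk X + 1 := by rw [Cardinal.mk_list_eq_mk]
      _ = Cardinal.mk X := Cardinal.add_one_eq hX
  · refine Cardinal.mk_le_of_injective (f := fun x : X => (some ⟨0, fun _ => x⟩ : Tup X)) ?_
    intro x y h
    have h1 := eq_of_heq (Sigma.mk.inj (Option.some.inj h)).2
    exact congrFun h1 0

theorem infinite_case (X : Type u) [Infinite X] :
    ∃ φ : LocalClone X → LocalMonoid X, Function.Injective φ ∧
      (∀ C D, φ (C ⊓ D) = φ C ⊓ φ D) ∧ (∀ C D, φ (C ⊔ D) = φ C ⊔ φ D) ∧
      ∀ S : Set (LocalClone X), S.Nonempty →
        φ (sInf S) = sInf (φ '' S) ∧ φ (sSup S) = sSup (φ '' S) := by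
  obtain ⟨e⟩ := Cardinal.eq.1 (mk_Tup X)
  have h : CompleteEmb (LocalMonoid.congr e ∘ (toMon : LocalClone X → LocalMonoid (Tup X))) :=
    (CompleteEmb.of_orderIso (LocalMonoid.congr e)).comp toMon_completeEmb
  exact ⟨_, h.1, h.map_inf, h.map_sup, h.2⟩

/-! ### Finite sets with at least two elements: infinitely many clones -/

/-- The clone of the operations `f` such that, whenever `f` takes the value `a` on `k` rows, some
column of the rows is constantly `a`. -/
def polClone {X : Type u} (a : X) (k : ℕ) : LocalClone X where
  carrier n := {f | ∀ rows : Fin k → (Fin (n + 1) → X), (∀ i, f (rows i) = a) →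
    ∃ c, ∀ i, rows i c = a}
  proj_mem n i := fun rows h => ⟨i, h⟩
  comp_mem := by
    intro n m f g hf hg rows h
    obtain ⟨c, hc⟩ := hf (fun i j => g j (rows i)) h
    exact hg c rows hc
  closed n := by
    classical
    rw [ptClosed_iff]
    intro f hf rows h
    obtain ⟨g, hg, hgf⟩ := hf (Finset.univ.image rows)
    refine hg rows fun i => ?_
    rw [hgf _ (Finset.mem_image_of_mem _ (Finset.mem_univ i))]
    exact h i

/-- the operation of arity `k + 1` with value `a` if at most one argument is not `a` -/
noncomputable def thr {X : Type u} (a b : X) (k : ℕ) : Op X k := by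
  classical
  exact fun x => if ∃ c, ∀ d, x d ≠ a → d = c then a else b

theorem thr_mem {X : Type u} {a b : X} (hab : a ≠ b) (k : ℕ) :
    thr a b k ∈ (polClone a k).carrier k := by
  classical
  intro rows h
  have h1 : ∀ i, ∃ c : Fin (k + 1), ∀ d, rows i d ≠ a → d = c := by
    intro i
    by_contra hcon
    have h2 := h i
    simp only [thr, if_neg hcon] at h2
    exact hab h2.symm
  choose u hu using h1
  have hns : ¬ Function.Surjective u := by
    intro hs
    have := Fintype.card_le_of_surjective u hs
    simp at this
  rw [Function.Surjective] at hns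
  push Not at hns
  obtain ⟨c, hc⟩ := hns
  refine ⟨c, fun i => ?_⟩
  by_contra hne
  exact hc i (hu i c hne).symm

theorem thr_not_mem {X : Type u} {a b : X} (hab : a ≠ b) {k m : ℕ} (hkm : k < m) :
    thr a b k ∉ (polClone a m).carrier k := by
  classical
  intro hmem
  obtain ⟨c, hc⟩ := hmem (fun i d => if (d : ℕ) = (i : ℕ) then b else a) (by
    intro i
    have h1 : ∃ c : Fin (k + 1), ∀ d : Fin (k + 1),
        (if (d : ℕ) = (i : ℕ) then b else a) ≠ a → d = c := by
      by_cases hi : (i : ℕ) < k + 1
      · refine ⟨⟨i, hi⟩, fun d hd => ?_⟩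
        by_contra hne
        have : ¬ (d : ℕ) = (i : ℕ) := fun h => hne (Fin.ext h)
        rw [if_neg this] at hd
        exact hd rfl
      · refine ⟨0, fun d hd => ?_⟩
        have : ¬ (d : ℕ) = (i : ℕ) := by
          have := d.2
          omega
        rw [if_neg this] at hd
        exact absurd rfl hd
    simp only [thr, if_pos h1])
  have h2 := hc ⟨c, by have := c.2; omega⟩
  simp at h2
  exact hab h2.symm

theorem infinite_clones (X : Type u) [Nontrivial X] : Infinite (LocalClone X) := by
  obtain ⟨a, b, hab⟩ := exists_pair_ne X
  refine Infinite.of_injective (polClone a) ?_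
  have key : ∀ k m : ℕ, k < m → polClone a k ≠ polClone a m := by
    intro k m hkm h
    have h1 := thr_mem hab k
    rw [h] at h1
    exact thr_not_mem hab hkm h1
  intro k m h
  rcases lt_trichotomy k m with hkm | hkm | hkm
  · exact absurd h (key k m hkm)
  · exact hkm
  · exact absurd h.symm (key m k hkm)

theorem finite_monoids (X : Type u) [Finite X] : Finite (LocalMonoid X) :=
  Finite.of_injective (fun M : LocalMonoid X => M.carrier) fun _ _ h => LocalMonoid.ext h

/-- **Result.**  Let `X` be a set of arbitrary cardinality.  (1) There is an injective map from the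
lattice of local clones on `X` to the lattice of local transformation monoids on `X` which preserves
binary meets and joins, and the meets and joins of all nonempty families, if and only if `X` is
infinite or has at most one element.  (2) If `X` is finite with at least two elements, there is no
injective map at all between these lattices. -/
theorem result (X : Type u) :
    ((∃ φ : LocalClone X → LocalMonoid X, Function.Injective φ ∧
      (∀ C D, φ (C ⊓ D) = φ C ⊓ φ D) ∧ (∀ C D, φ (C ⊔ D) = φ C ⊔ φ D) ∧
      ∀ S : Set (LocalClone X), S.Nonempty →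
        φ (sInf S) = sInf (φ '' S) ∧ φ (sSup S) = sSup (φ '' S)) ↔
      (Infinite X ∨ Subsingleton X)) ∧
    (Finite X → Nontrivial X → ¬ ∃ φ : LocalClone X → LocalMonoid X, Function.Injective φ) := by
  have h2 : Finite X → Nontrivial X →
      ¬ ∃ φ : LocalClone X → LocalMonoid X, Function.Injective φ := by
    rintro hf hn ⟨φ, hφ⟩
    have := infinite_clones X
    have := finite_monoids X
    exact not_finite_iff_infinite.2 (infinite_clones X) (Finite.of_injective φ hφ)
  refine ⟨⟨?_, ?_⟩, h2⟩
  · rintro ⟨φ, hφ, -⟩
    by_contra hcon
    rw [not_or, not_infinite_iff_finite, not_subsingleton_iff_nontrivial] at hcon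
    exact h2 hcon.1 hcon.2 ⟨φ, hφ⟩
  · rintro (h | h)
    · exact infinite_case X
    · have hc : Subsingleton (LocalClone X) := by
        refine ⟨fun C D => LocalClone.ext ?_⟩
        funext n
        ext f
        have hf : f = fun x => x 0 := by
          funext x
          exact Subsingleton.elim _ _
        rw [hf]
        exact iff_of_true (C.proj_mem n 0) (D.proj_mem n 0)
      have hm : Subsingleton (LocalMonoid X) := by
        refine ⟨fun C D => LocalMonoid.ext ?_⟩
        ext f
        have hf : f = id := by
          funext x
          exact Subsingleton.elim _ _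
        rw [hf]
        exact iff_of_true C.id_mem D.id_mem
      exact ⟨fun _ => ⊤, fun _ _ _ => Subsingleton.elim _ _, fun _ _ => Subsingleton.elim _ _,
        fun _ _ => Subsingleton.elim _ _,
        fun _ _ => ⟨Subsingleton.elim _ _, Subsingleton.elim _ _⟩⟩

end Pool.Agent.Results.MP_cac0a5_al.EverySet
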